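import Pool.Agent.H88.KN.Targets

namespace Pool.Agent.H87.KN
open Finset Pool.Agent.H88.KN

theorem pf_NB : T_NB := by
  intro V _ rel hirr f g hfg s hs0 hs1
  classical
  unfold FF
  rw [mul_sum, mul_sum, ← sum_add_distrib]
  refine sum_le_sum fun v _ => ?_
  rw [mul_sum, mul_sum, ← sum_add_distrib]
  refine sum_le_sum fun w _ => ?_
  by_cases hr : rel v w
  · rw [if_pos hr, if_pos hr, if_pos hr]
    have hvw : v ≠ w := by
      rintro rfl
      exact hirr v hr
    obtain ⟨h1, h2⟩ := hfg v w hvw
    have h3 : (g v - f v) * (g w - f w) ≤ 0 := by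
      rcases le_total (g v) (f v) with h | h
      · rcases le_total (f w) (g w) with h' | h'
        · exact mul_nonpos_of_nonpos_of_nonneg (by linarith) (by linarith)
        · rcases eq_or_lt_of_le h with h4 | h4
          · rw [h4, sub_self, zero_mul]
          · rcases eq_or_lt_of_le h' with h5 | h5
            · rw [h5, sub_self, mul_zero]
            · exact absurd ⟨h4, h5⟩ h2
      · rcases le_total (g w) (f w) with h' | h'
        · exact mul_nonpos_of_nonneg_of_nonpos (by linarith) (by linarith)
        · rcases eq_or_lt_of_le h with h4 | h4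
          · rw [h4, sub_self, zero_mul]
          · rcases eq_or_lt_of_le h' with h5 | h5
            · rw [h5, sub_self, mul_zero]
            · exact absurd ⟨h4, h5⟩ h1
    have h6 : 0 ≤ s * (1 - s) := mul_nonneg hs0 (by linarith)
    have h7 : ((1 - s) * f v + s * g v) * (1 - ((1 - s) * f w + s * g w)) =
        (1 - s) * (f v * (1 - f w)) + s * (g v * (1 - g w)) +
          s * (1 - s) * ((g v - f v) * (g w - f w)) := by ring
    have h8 := mul_nonpos_of_nonneg_of_nonpos h6 h3
    simp only
    rw [h7]
    linarith
  · rw [if_neg hr, if_neg hr, if_neg hr]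
    simp

end Pool.Agent.H87.KN
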