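import Pool.Agent.H88.KN.Targets

namespace Pool.Agent.H87.KN
open Finset Pool.Agent.H88.KN

lemma xb_le {a b s : ℝ} (hs0 : 0 ≤ s) (hs1 : s ≤ 1) (h : a ≤ b) :
    a ≤ (1 - s) * a + s * b ∧ (1 - s) * a + s * b ≤ b := by
  constructor
  · have : 0 ≤ s * (b - a) := mul_nonneg hs0 (by linarith)
    linarith
  · have : 0 ≤ (1 - s) * (b - a) := mul_nonneg (by linarith) (by linarith)
    linarith

lemma xb_ge {a b s : ℝ} (hs0 : 0 ≤ s) (hs1 : s ≤ 1) (h : b ≤ a) :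
    b ≤ (1 - s) * a + s * b ∧ (1 - s) * a + s * b ≤ a := by
  constructor
  · have : 0 ≤ (1 - s) * (a - b) := mul_nonneg (by linarith) (by linarith)
    linarith
  · have : 0 ≤ s * (a - b) := mul_nonneg hs0 (by linarith)
    linarith

theorem pf_XB : T_XB := by
  intro V f g hfg v w hvw s θ η hs0 hs1 hθ hη
  obtain ⟨h1, h2⟩ := hfg v w hvw
  by_cases hv : f v < g v
  · have hw : g w ≤ f w := not_lt.1 fun h => h1 ⟨hv, h⟩
    right
    exact ⟨hθ.trans_le (xb_le hs0 hs1 hv.le).2, (xb_ge hs0 hs1 hw).1.trans hη⟩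
  · have hv' : g v ≤ f v := not_lt.1 hv
    by_cases hw : f w ≤ g w
    · left
      exact ⟨hθ.trans_le (xb_ge hs0 hs1 hv').2, (xb_le hs0 hs1 hw).1.trans hη⟩
    · have hw' : g w < f w := not_le.1 hw
      have hv2 : f v ≤ g v := not_lt.1 fun h => h2 ⟨h, hw'⟩
      right
      exact ⟨hθ.trans_le (xb_le hs0 hs1 hv2).2, (xb_ge hs0 hs1 hw'.le).1.trans hη⟩

end Pool.Agent.H87.KN
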